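import Pool.Agent.L0h29.AL.Asm3

/-!
# MP_a1ec0a_al: the word problem reduces to finite labels below 100

An algorithm for the standard parabolic subgroups all of whose labels are finite and `< 100` gives an
algorithm for the whole Artin group, uniformly in the Coxeter matrix.
-/

set_option autoImplicit false

namespace Pool.Agent.Results.MP_a1ec0a_al.LabelsBelowHundred

open Pool.Agent.K7.H20.AW Pool.Agent.L0h29.AL

/-- For every computable `f₀` there is a computable `f` such that the following holds for every Coxeter
matrix, given by its number `n` of generators and the list `L` of its labels. Suppose that for every set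
`X` of generators all of whose labels are finite and `< 100`, the function `f₀` decides the word problem
of the Artin group of `clL n L X`, the matrix in which all labels outside `X` are replaced by `2` (the
Artin group is the product of the standard parabolic subgroup of `X` and a free abelian group). Then `f`
decides the word problem of the Artin group of the given matrix. -/
theorem result (f₀ : ℕ × List (List ℕ) × List (ℕ × Bool) → Bool) (h₀ : Computable f₀) :
    ∃ f : ℕ × List (List ℕ) × List (ℕ × Bool) → Bool, Computable f ∧
      ∀ n L, (∀ X : List ℕ,
        (∀ i j : Fin n, i.val ∈ X → j.val ∈ X → mat n L i j ≠ 0 ∧ mat n L i j < 100) →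
        ∀ w, (f₀ (n, clL n L X, w) = true ↔ Triv (n, clL n L X, w))) →
      ∀ w, (f (n, L, w) = true ↔ Triv (n, L, w)) :=
  b_REL f₀ h₀

end Pool.Agent.Results.MP_a1ec0a_al.LabelsBelowHundred
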