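import Pool.Agent.L0h29.AL.Asm

/-!
# MP_a1ec0a_al: a word does not see the labels which are large compared with its numbers of syllables

Let `M` be an arbitrary Coxeter matrix and `w` an arbitrary word in syllables. Every label `m_{st}` with
`m_{st} ≥ 2 min (number of s-syllables of w, number of t-syllables of w) + 82` can be replaced by
infinity, or by any other label of this size, without changing whether `w = 1` in the Artin group.
-/

set_option autoImplicit false

namespace Pool.Agent.Results.MP_a1ec0a_al.LargeLabelsInvisible

open Pool.Agent.K7.H20.AW Pool.Agent.L0h29.AL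

/-- Let `M`, `M'` be Coxeter matrices on the same finite set and `w` a word. Suppose that the labels
of `M` and `M'` agree except for pairs `i, j` for which both labels are infinite (entry `0`) or at
least `2 min (syllables i w) (syllables j w) + 82`. Then `w = 1` in the Artin group of `M` if and
only if `w = 1` in the Artin group of `M'`. -/
theorem result {S : Type*} [Fintype S] [DecidableEq S] (M M' : CoxeterMatrix S)
    (w : List (S × ℤ))
    (h : ∀ i j, M i j = M' i j ∨
      ((M i j = 0 ∨ 2 * min (syllables i w) (syllables j w) + 82 ≤ M i j) ∧
        (M' i j = 0 ∨ 2 * min (syllables i w) (syllables j w) + 82 ≤ M' i j))) :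
    value M w = 1 ↔ value M' w = 1 := by
  have key : far M w = far M' w := by
    apply cm_ext
    intro i j
    rw [far_apply, far_apply]
    by_cases hij : i = j
    · rw [if_pos hij, if_pos hij]
    · rw [if_neg hij, if_neg hij]
      rcases h i j with h1 | ⟨h1 | h1, h2 | h2⟩
      · rw [h1]
      · rw [h1, h2]
      · rw [if_neg (by omega), if_pos h2, h1]
      · rw [if_pos h1, if_neg (by omega), h2]
      · rw [if_pos h1, if_pos h2]
  rw [a_MAI S M w, a_MAI S M' w, key]

end Pool.Agent.Results.MP_a1ec0a_al.LargeLabelsInvisible
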