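import Pool.Agent.L0h29.AL.Asm3

/-!
# MP_a1ec0a_al: the word problem when the cliques with small labels are spherical

One algorithm solves the word problem of all Artin groups `A_M` such that every set of generators whose
labels are finite and `< 100` generates a finite Coxeter group; the other labels are arbitrary.
-/

set_option autoImplicit false

namespace Pool.Agent.Results.MP_a1ec0a_al.SmallCliquesSpherical

open Pool.Agent.K7.H20.AW Pool.Agent.L0h29.AL

/-- There is a partial recursive function `f` such that for every Coxeter matrix (given by `n` and the
list `L` of its labels) in which every set of generators with finite labels `< 100` generates a finite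
Coxeter group, and for every word `w`, the value `f (n, L, w)` is defined and says correctly whether
`w = 1` in the Artin group. -/
theorem result : ∃ f : ℕ × List (List ℕ) × List (ℕ × Bool) →. Bool, Partrec f ∧
    ∀ n L, FCs (mat n L) → ∀ w, ∃ b ∈ f (n, L, w), (b = true ↔ Triv (n, L, w)) :=
  b_FCU

end Pool.Agent.Results.MP_a1ec0a_al.SmallCliquesSpherical
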